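import Mathlib
import Pool.Agent.Helper31.FarDual

set_option maxSynthPendingDepth 3

open Filter Topology Pool.Agent.Helper31
open scoped ENNReal NNReal

namespace Pool.Agent.Results.MP_a66ead_an.FarFromDuals

universe u v w z

/-- `N` is an equivalent norm on the normed space `X`. -/
def IsEquivNorm (𝕜 : Type u) [RCLike 𝕜] {X : Type v} [NormedAddCommGroup X] [NormedSpace 𝕜 X]
    (N : Seminorm 𝕜 X) : Prop :=
  ∃ a b : ℝ, 0 < a ∧ ∀ x, a * ‖x‖ ≤ N x ∧ N x ≤ b * ‖x‖

/-- The Banach-Mazur distance between `(X, N)` and the normed space `Z`: the infimum of `α * β`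
over all linear isomorphisms `T` of `X` onto `Z` such that `T` has norm at most `α` and the inverse
of `T` has norm at most `β`, when `X` is normed by `N`. It is `∞` if there is no such `T`. -/
noncomputable def bmDist (𝕜 : Type u) [RCLike 𝕜] {X : Type v} [NormedAddCommGroup X]
    [NormedSpace 𝕜 X] (N : Seminorm 𝕜 X) (Z : Type w) [NormedAddCommGroup Z] [NormedSpace 𝕜 Z] :
    ℝ≥0∞ :=
  ⨅ (T : X ≃ₗ[𝕜] Z) (α : ℝ≥0) (β : ℝ≥0) (_ : ∀ x, ‖T x‖ ≤ α * N x)
    (_ : ∀ x, N x ≤ β * ‖T x‖), (α : ℝ≥0∞) * β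

/-- `Z` is linearly isometric to the dual of some Banach space. -/
def IsIsometricDual (𝕜 : Type u) [RCLike 𝕜] (Z : Type w) [NormedAddCommGroup Z]
    [NormedSpace 𝕜 Z] : Prop :=
  ∃ (W : Type z) (_ : NormedAddCommGroup W) (_ : NormedSpace 𝕜 W) (_ : CompleteSpace W),
    Nonempty (Z ≃ₗᵢ[𝕜] StrongDual 𝕜 W)

/-- If the quotient of the bidual of `X` by `X` has infinite dimension, then for every `lam` the
space `X` has an equivalent norm whose Banach-Mazur distance to every isometric dual space is at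
least `lam`. -/
theorem result (𝕜 : Type u) [RCLike 𝕜] (X : Type v) [NormedAddCommGroup X] [NormedSpace 𝕜 X]
    [CompleteSpace X]
    (hX : ¬ FiniteDimensional 𝕜 (StrongDual 𝕜 (StrongDual 𝕜 X) ⧸
      LinearMap.range (NormedSpace.inclusionInDoubleDual 𝕜 X).toLinearMap))
    (lam : ℝ) (_hlam : 1 ≤ lam) :
    ∃ N : Seminorm 𝕜 X, IsEquivNorm 𝕜 N ∧
      ∀ (Z : Type w) [NormedAddCommGroup Z] [NormedSpace 𝕜 Z], IsIsometricDual.{u, w, z} 𝕜 Z →
        ENNReal.ofReal lam ≤ bmDist 𝕜 N Z := by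
  obtain ⟨x, f, hx, hf, hfx, hnull⟩ := Renorm.exists_array_null hX
  set D : ℕ := ⌈lam⌉₊ with hD
  have hDlam : lam ≤ D := Nat.le_ceil lam
  have hD0 : (0 : ℝ) ≤ D := Nat.cast_nonneg D
  have hK : (0 : ℝ) ≤ 8 * (D : ℝ) + 1 := by positivity
  refine ⟨Renorm.newSeminorm (𝕜 := 𝕜) x D hK, ?_, ?_⟩
  · refine ⟨(8 * (D : ℝ) + 1)⁻¹, 8 * (D : ℝ) + 1, by positivity, fun y => ⟨?_, ?_⟩⟩
    · exact Renorm.mul_le_newNorm hx D (by linarith) y
    · exact Renorm.newNorm_le_mul x D hK y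
  · rintro Z _ _ ⟨W, _, _, _, ⟨J⟩⟩
    unfold bmDist
    refine le_iInf fun T => le_iInf fun α => le_iInf fun β => le_iInf fun h1 => le_iInf fun h2 => ?_
    have key := Renorm.main_estimate hx hf hfx hnull D le_rfl (T.trans J.toLinearEquiv)
      (α := α) (β := β) α.2 β.2
      (fun y => by
        have e1 : ‖(T.trans J.toLinearEquiv) y‖ = ‖T y‖ := J.norm_map (T y)
        rw [e1]
        exact h1 y)
      (fun y => by
        have e1 : ‖(T.trans J.toLinearEquiv) y‖ = ‖T y‖ := J.norm_map (T y)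
        rw [e1]
        exact h2 y)
    have h3 : lam ≤ (α * β : ℝ≥0) := by
      rw [NNReal.coe_mul]
      exact hDlam.trans key
    rw [← ENNReal.coe_mul]
    exact ENNReal.ofReal_le_of_le_toReal h3

end Pool.Agent.Results.MP_a66ead_an.FarFromDuals
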